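import Pool.Agent.Helper57.NS.Defs
import Pool.Agent.Helper7.UV.Mert

/-!
# NS: the variance, lower bound
-/

set_option autoImplicit false
open MeasureTheory Set Filter Topology
open Pool.Agent.Helper69.UG (XX)
open Pool.Agent.Helper57.TX (QX DP rs)
open Pool.Agent.Helper57.NS (Sc wk rk Xk)

namespace Pool.Agent.Helper93.NS

lemma mem_QX {X : ℝ} {p : ℕ} : p ∈ QX X ↔ p.Prime ∧ Real.log p ≤ X := by
  unfold QX
  rw [Finset.mem_filter, Finset.mem_range, Nat.lt_succ_iff]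
  constructor
  · rintro ⟨h1, h2⟩
    have hp0 : (0:ℝ) < p := by exact_mod_cast h2.pos
    exact ⟨h2, (Real.log_le_iff_le_exp hp0).2 ((Nat.le_floor_iff (Real.exp_pos X).le).1 h1)⟩
  · rintro ⟨h1, h2⟩
    have hp0 : (0:ℝ) < p := by exact_mod_cast h1.pos
    exact ⟨(Nat.le_floor_iff (Real.exp_pos X).le).2 ((Real.log_le_iff_le_exp hp0).1 h2), h1⟩

/-- the telescoping inequality -/
lemma step_H {k y : ℝ} (hk : 0 ≤ k) (hy : 0 ≤ y) :
    (1 - max 0 (1 - (1 + k) * y) ^ 3) / 3 - (1 - max 0 (1 - y) ^ 3) / 3 ≤ k * (y * max 0 (1 - y) ^ 2) := by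
  set u := max 0 (1 - y) with hu
  set u' := max 0 (1 - (1 + k) * y) with hu'
  have h0 : 0 ≤ u := le_max_left _ _
  have h0' : 0 ≤ u' := le_max_left _ _
  have hky : 0 ≤ k * y := mul_nonneg hk hy
  have h1 : u' ≤ u := max_le_max le_rfl (by linarith)
  have h2 : u - u' ≤ k * y := by
    rcases le_or_gt y 1 with h | h
    · rw [hu, max_eq_right (by linarith)]
      have := le_max_right 0 (1 - (1 + k) * y)
      linarith
    · rw [hu, max_eq_left (by linarith)]
      linarith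
  have h3 : u ^ 3 - u' ^ 3 ≤ (u - u') * (3 * u ^ 2) := by
    have e : u ^ 3 - u' ^ 3 = (u - u') * (u ^ 2 + u * u' + u' ^ 2) := by ring
    rw [e]
    refine mul_le_mul_of_nonneg_left ?_ (by linarith)
    nlinarith
  have h4 : (u - u') * (3 * u ^ 2) ≤ (k * y) * (3 * u ^ 2) := mul_le_mul_of_nonneg_right h2 (by positivity)
  linarith

lemma H_le {y : ℝ} (hy : 0 ≤ y) : (1 - max 0 (1 - y) ^ 3) / 3 ≤ y := by
  rcases le_or_gt y 1 with h | h
  · rw [max_eq_right (by linarith)]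
    nlinarith [mul_nonneg hy (by linarith : 0 ≤ 1 - y), sq_nonneg y, mul_nonneg (sq_nonneg y) (by linarith : 0 ≤ 1 - y)]
  · rw [max_eq_left (by linarith)]
    norm_num
    linarith

/-- sum of `1/p` -/
lemma recip_sum : ∃ E : ℝ, 0 < E ∧ ∀ a b : ℝ, 1 ≤ a → a ≤ b → ∀ P : Finset ℕ,
    (∀ p : ℕ, p ∈ P ↔ p.Prime ∧ a < Real.log p ∧ Real.log p ≤ b) → Real.log (b / a) - E ≤ ∑ p ∈ P, 1 / (p:ℝ) := by
  obtain ⟨E, hE, H⟩ := Pool.Agent.Helper7.UV.prime_sum
  refine ⟨E, hE, fun a b ha hab P hP => ?_⟩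
  have ha0 : 0 < a := by linarith
  have hb0 : 0 < b := by linarith
  have hne : ∀ u ∈ Icc a b, u ≠ 0 := fun u hu => by linarith [hu.1] |> fun h : 0 < u => h.ne'
  have h1 := H a b ha0.le hab P hP (fun u => u⁻¹) (fun u => -(u ^ 2)⁻¹) (fun u hu => hasDerivAt_inv (hne u hu)) (by
    apply ContinuousOn.neg
    apply ContinuousOn.inv₀ (by fun_prop)
    intro u hu
    exact pow_ne_zero 2 (hne u hu))
  have h2 : ∑ p ∈ P, Real.log p / p * (Real.log p)⁻¹ = ∑ p ∈ P, 1 / (p:ℝ) := by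
    refine Finset.sum_congr rfl fun p hp => ?_
    have h3 := (hP p).1 hp
    have h4 : Real.log p ≠ 0 := by linarith [h3.2.1] |> fun h : 0 < Real.log p => h.ne'
    field_simp
  have h3 : ∫ u in a..b, u⁻¹ = Real.log (b / a) := integral_inv_of_pos ha0 hb0
  have h4 : ∫ u in a..b, |-(u ^ 2)⁻¹| = a⁻¹ - b⁻¹ := by
    have h5 : ∫ u in a..b, |-(u ^ 2)⁻¹| = ∫ u in a..b, (u ^ 2)⁻¹ := by
      congr 1
      funext u
      rw [abs_neg, abs_of_nonneg (by positivity)]
    rw [h5]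
    have h6 := intervalIntegral.integral_eq_sub_of_hasDerivAt (a := a) (b := b) (f := fun u : ℝ => -u⁻¹) (f' := fun u => (u ^ 2)⁻¹)
      (fun u hu => by
        rw [uIcc_of_le hab] at hu
        have := (hasDerivAt_inv (hne u hu)).fun_neg
        rwa [neg_neg] at this) (by
        apply ContinuousOn.intervalIntegrable
        rw [uIcc_of_le hab]
        apply ContinuousOn.inv₀ (by fun_prop)
        intro u hu
        exact pow_ne_zero 2 (hne u hu))
    rw [h6]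
    ring
  rw [h2, h3, h4, abs_of_pos (inv_pos.2 hb0)] at h1
  have h5 := (abs_le.1 h1).1
  have h6 : b⁻¹ + (a⁻¹ - b⁻¹) ≤ 1 := by
    have : a⁻¹ ≤ 1 := inv_le_one_of_one_le₀ ha
    linarith
  have h7 := mul_le_mul_of_nonneg_left h6 hE.le
  linarith

/-- the coefficients in the bulk -/
lemma rk_bulk {k T L : ℝ} (hk : 0 < k) (hk8 : k ≤ 1 / 8) (hT : 1 < T) (hL : 1 < L) {a : ℕ}
    (hsum : ∀ f : ℕ → ℝ, ∑ j ∈ Sc k L, f j = ∑ i ∈ Finset.range (Sc k L).card, f (a + i)) (hJ : 1 ≤ (Sc k L).card)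
    (h1 : (1 + k) ^ a ≤ (1 + k) * L ^ k) (h2 : L ^ (1 - k) ≤ (1 + k) * (1 + k) ^ (a + (Sc k L).card - 1)) {p : ℕ} (hp : p.Prime)
    (hx1 : Real.log T / L ^ (1 - k) ≤ Real.log p) (hx2 : Real.log p ≤ k / 6 * (Real.log T / L ^ k)) :
    (1 - 3 * k / 5) / ((Sc k L).card * k) ≤ rk k T L p := by
  have hlT : 0 < Real.log T := Real.log_pos hT
  have hx0 : 0 < Real.log p := Real.log_pos (by exact_mod_cast hp.one_lt)
  have hL0 : 0 < L := by linarith
  set x := Real.log p with hx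
  set J := (Sc k L).card with hJd
  obtain ⟨y, hy⟩ : ∃ y : ℕ → ℝ, y = fun i => x * (1 + k) ^ (a + i) / Real.log T := ⟨_, rfl⟩
  have hy0 : ∀ i, 0 ≤ y i := fun i => by rw [hy]; positivity
  have hys : ∀ i, y (i + 1) = (1 + k) * y i := by
    intro i
    rw [hy]
    simp only
    rw [← add_assoc, pow_succ]
    ring
  -- the terms
  have hterm : ∀ i, (if x ≤ XX T ((1 + k) ^ (a + i)) then rs (XX T ((1 + k) ^ (a + i))) p else 0) =
      2 * (y i * max 0 (1 - y i) ^ 2) := by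
    intro i
    have hX : 0 < XX T ((1 + k) ^ (a + i)) := by
      unfold XX
      positivity
    have hyi : y i = x / XX T ((1 + k) ^ (a + i)) := by
      rw [hy]
      unfold XX
      field_simp
    split_ifs with h
    · have h3 : y i ≤ 1 := by
        rw [hyi, div_le_one hX]
        exact h
      rw [max_eq_right (by linarith)]
      unfold rs
      rw [← hx, hyi]
      field_simp
    · have h3 : 1 < y i := by
        rw [hyi, one_lt_div hX]
        exact not_le.1 h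
      rw [max_eq_left (by linarith)]
      ring
  have hrk : rk k T L p = wk k L * ∑ i ∈ Finset.range J, 2 * (y i * max 0 (1 - y i) ^ 2) := by
    unfold rk
    rw [hsum]
    congr 1
    exact Finset.sum_congr rfl fun i _ => hterm i
  -- telescoping
  have htel : (1 - max 0 (1 - y J) ^ 3) / 3 - (1 - max 0 (1 - y 0) ^ 3) / 3 ≤ k * ∑ i ∈ Finset.range J, (y i * max 0 (1 - y i) ^ 2) := by
    have h3 := Finset.sum_range_sub (fun i => (1 - max 0 (1 - y i) ^ 3) / 3) J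
    rw [← h3, Finset.mul_sum]
    refine Finset.sum_le_sum fun i _ => ?_
    have := step_H (k := k) (y := y i) hk.le (hy0 i)
    rw [← hys] at this
    exact this
  have hyJ : 1 ≤ y J := by
    rw [hy]
    simp only
    rw [le_div_iff₀ hlT, one_mul]
    have h3 : (1 + k) * (1 + k) ^ (a + J - 1) = (1 + k) ^ (a + J) := by
      rw [← pow_succ']
      congr 1
      omega
    rw [h3] at h2
    rw [div_le_iff₀ (by positivity)] at hx1
    exact hx1.trans (mul_le_mul_of_nonneg_left h2 hx0.le)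
  have hy00 : y 0 ≤ k / 5 := by
    rw [hy]
    simp only [add_zero]
    rw [div_le_iff₀ hlT]
    have h3 : x * (1 + k) ^ a ≤ (k / 6 * (Real.log T / L ^ k)) * ((1 + k) * L ^ k) := mul_le_mul hx2 h1 (by positivity) (by positivity)
    have h4 : (k / 6 * (Real.log T / L ^ k)) * ((1 + k) * L ^ k) = k / 6 * (1 + k) * Real.log T := by
      have : L ^ k ≠ 0 := by positivity
      field_simp
    rw [h4] at h3
    refine h3.trans (mul_le_mul_of_nonneg_right ?_ hlT.le)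
    nlinarith
  have hH0 := H_le (hy0 0)
  rw [max_eq_left (by linarith : 1 - y J ≤ 0)] at htel
  have hS : (1 / 3 - k / 5) / k ≤ ∑ i ∈ Finset.range J, (y i * max 0 (1 - y i) ^ 2) := by
    rw [div_le_iff₀ hk]
    norm_num at htel
    linarith
  have hJ0 : (0:ℝ) < J := by exact_mod_cast hJ
  rw [hrk, ← Finset.mul_sum]
  unfold wk
  rw [← hJd]
  have h3 : 3 / (2 * (J:ℝ)) * (2 * ((1 / 3 - k / 5) / k)) ≤ 3 / (2 * (J:ℝ)) * (2 * ∑ i ∈ Finset.range J, (y i * max 0 (1 - y i) ^ 2)) := by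
    gcongr
  refine le_trans (le_of_eq ?_) h3
  field_simp

/-- D1: variance, lower bound, from the blocks on the scales -/
theorem var_low_of
    (card_bd : ∀ {k : ℝ}, 0 < k → k ≤ 1 / 8 → ∃ C : ℝ, 1 ≤ C ∧ ∀ L : ℝ, C ≤ L →
      |((Sc k L).card : ℝ) * Real.log (1 + k) - (1 - 2 * k) * Real.log L| ≤ Real.log (1 + k))
    (sc_range : ∀ {k : ℝ}, 0 < k → k ≤ 1 / 8 → ∃ C : ℝ, 1 ≤ C ∧ ∀ L : ℝ, C ≤ L → ∃ a : ℕ,
      (∀ f : ℕ → ℝ, ∑ j ∈ Sc k L, f j = ∑ i ∈ Finset.range (Sc k L).card, f (a + i)) ∧ 1 ≤ (Sc k L).card ∧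
      L ^ k ≤ (1 + k) ^ a ∧ (1 + k) ^ a ≤ (1 + k) * L ^ k ∧ (1 + k) ^ (a + (Sc k L).card - 1) ≤ L ^ (1 - k) ∧
      L ^ (1 - k) ≤ (1 + k) * (1 + k) ^ (a + (Sc k L).card - 1))
    {k : ℝ} (hk : 0 < k) (hk8 : k ≤ 1 / 8) : ∃ C T₀ : ℝ, 1 ≤ C ∧ ∀ T L : ℝ, T₀ ≤ T → C ≤ L → L ≤ Real.log T →
    (1 - 6 * k) / Real.log L ≤ ∑ p ∈ QX (Xk k T L), rk k T L p ^ 2 / p := by
  obtain ⟨C₁, hC₁, H1⟩ := card_bd hk hk8
  obtain ⟨C₂, hC₂, H2⟩ := sc_range hk hk8
  obtain ⟨E, hE, H3⟩ := recip_sum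
  obtain ⟨ℓ, hℓ⟩ : ∃ ℓ, ℓ = (6 / k + E) / k := ⟨_, rfl⟩
  refine ⟨max (max C₁ C₂) (Real.exp ℓ), 3, hC₁.trans ((le_max_left _ _).trans (le_max_left _ _)), fun T L hT hCL hLT => ?_⟩
  have hL1 : C₁ ≤ L := ((le_max_left _ _).trans (le_max_left _ _)).trans hCL
  have hL2 : C₂ ≤ L := ((le_max_right _ _).trans (le_max_left _ _)).trans hCL
  have hL3 : Real.exp ℓ ≤ L := (le_max_right _ _).trans hCL
  have hL0 : 0 < L := (Real.exp_pos _).trans_le hL3
  have hlogL : ℓ ≤ Real.log L := by rwa [Real.le_log_iff_exp_le hL0]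
  have hl : 6 / k + E ≤ k * Real.log L := by
    rw [hℓ, div_le_iff₀ hk] at hlogL
    linarith
  have h6k : 48 ≤ 6 / k := by
    rw [le_div_iff₀ hk]
    linarith
  have hl0 : 0 < Real.log L := by nlinarith
  have hl48 : 384 ≤ Real.log L := by nlinarith
  have hLone : 1 < L := by
    by_contra h
    have := Real.log_nonpos hL0.le (not_lt.1 h)
    linarith
  have hlT : 0 < Real.log T := by linarith
  have hT1 : 1 < T := by linarith
  obtain ⟨a, hsum, hJ, -, ha2, -, ha4⟩ := H2 L hL2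
  have hcard := (abs_le.1 (H1 L hL1)).2
  set J := (Sc k L).card with hJd
  have hJ0 : (0:ℝ) < J := by exact_mod_cast hJ
  set h := Real.log (1 + k) with hh
  have hh1 : h ≤ k := by
    have := Real.log_le_sub_one_of_pos (show 0 < 1 + k by linarith)
    linarith
  have hh2 : k ≤ h * (1 + k / 2) := by
    have h5 := Real.le_log_one_add_of_nonneg hk.le
    rw [div_le_iff₀ (by linarith)] at h5
    linarith
  have hJk : J * k ≤ (1 + k / 2) * ((1 - 2 * k) * Real.log L + h) := by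
    have h5 := mul_le_mul_of_nonneg_left hh2 hJ0.le
    have h6 := mul_le_mul_of_nonneg_left hcard (show 0 ≤ 1 + k / 2 by linarith)
    nlinarith
  have hr : 1 / Real.log L ≤ (1 - 3 * k / 5) / (J * k) := by
    rw [div_le_div_iff₀ hl0 (by positivity), one_mul]
    refine hJk.trans ?_
    nlinarith
  -- the bulk
  obtain ⟨A, hA⟩ : ∃ A, A = Real.log T / L ^ (1 - k) := ⟨_, rfl⟩
  obtain ⟨B, hB⟩ : ∃ B, B = k / 6 * (Real.log T / L ^ k) := ⟨_, rfl⟩
  have hA1 : 1 ≤ A := by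
    rw [hA, le_div_iff₀ (by positivity), one_mul]
    calc L ^ (1 - k) ≤ L ^ (1:ℝ) := Real.rpow_le_rpow_of_exponent_le hLone.le (by linarith)
      _ = L := Real.rpow_one L
      _ ≤ Real.log T := hLT
  have hA0 : 0 < A := by linarith
  have hB0 : 0 < B := by rw [hB]; positivity
  have hBA : B / A = k / 6 * L ^ (1 - 2 * k) := by
    rw [hA, hB]
    have e : L ^ (1 - 2 * k) = L ^ (1 - k) / L ^ k := by
      rw [← Real.rpow_sub hL0]
      congr 1
      ring
    rw [e]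
    have : L ^ (1 - k) ≠ 0 := by positivity
    field_simp
  have hlogBA : Real.log (B / A) = (1 - 2 * k) * Real.log L - Real.log (6 / k) := by
    rw [hBA, Real.log_mul (by positivity) (by positivity), Real.log_rpow hL0, Real.log_div hk.ne' (by norm_num),
      Real.log_div (by norm_num) hk.ne']
    ring
  have hlog6 : Real.log (6 / k) ≤ 6 / k := (Real.log_le_self (by positivity))
  have hlow : (1 - 3 * k) * Real.log L + E ≤ Real.log (B / A) := by
    rw [hlogBA]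
    linarith
  have hAB : A ≤ B := by
    have h5 : 0 ≤ Real.log (B / A) := by
      have : 0 ≤ (1 - 3 * k) * Real.log L := mul_nonneg (by linarith) hl0.le
      linarith
    have h6 : 1 ≤ B / A := by
      by_contra h7
      have := Real.log_neg (by positivity) (not_le.1 h7)
      linarith
    rwa [le_div_iff₀ hA0, one_mul] at h6
  have hBX : B ≤ Xk k T L := by
    rw [hB]
    unfold Xk
    refine mul_le_of_le_one_left (by positivity) (by linarith)
  obtain ⟨P, hP⟩ : ∃ P : Finset ℕ, P = (QX (Xk k T L)).filter (fun p : ℕ => A < Real.log p ∧ Real.log p ≤ B) := ⟨_, rfl⟩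
  have hPm : ∀ p : ℕ, p ∈ P ↔ p.Prime ∧ A < Real.log p ∧ Real.log p ≤ B := by
    intro p
    rw [hP, Finset.mem_filter, mem_QX]
    constructor
    · rintro ⟨⟨h5, -⟩, h6⟩
      exact ⟨h5, h6⟩
    · rintro ⟨h5, h6⟩
      exact ⟨⟨h5, h6.2.trans hBX⟩, h6⟩
  have hrec := H3 A B hA1 hAB P hPm
  have hbulk : ∑ p ∈ P, 1 / (p:ℝ) * (1 / Real.log L) ^ 2 ≤ ∑ p ∈ QX (Xk k T L), rk k T L p ^ 2 / p := by
    refine le_trans (Finset.sum_le_sum fun p hp => ?_) (Finset.sum_le_sum_of_subset_of_nonneg (hP ▸ Finset.filter_subset _ _) fun p _ _ =>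
      div_nonneg (sq_nonneg _) (Nat.cast_nonneg _))
    obtain ⟨h5, h6, h7⟩ := (hPm p).1 hp
    have h8 := rk_bulk hk hk8 hT1 hLone hsum hJ ha2 ha4 h5 (by rw [← hA]; exact h6.le) (by rw [← hB]; exact h7)
    have h9 : 1 / Real.log L ≤ rk k T L p := hr.trans h8
    have h10 := pow_le_pow_left₀ (by positivity) h9 2
    have hp0 : (0:ℝ) < p := by exact_mod_cast h5.pos
    rw [mul_comm, mul_one_div]
    exact div_le_div_of_nonneg_right h10 hp0.le
  rw [← Finset.sum_mul] at hbulk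
  refine le_trans ?_ hbulk
  have h5 : (1 - 3 * k) * Real.log L ≤ ∑ p ∈ P, 1 / (p:ℝ) := by linarith
  have h6 := mul_le_mul_of_nonneg_right h5 (sq_nonneg (1 / Real.log L))
  refine le_trans ?_ h6
  have h7 : (1 - 3 * k) * Real.log L * (1 / Real.log L) ^ 2 = (1 - 3 * k) / Real.log L := by
    field_simp
  rw [h7]
  exact div_le_div_of_nonneg_right (by linarith) hl0.le

end Pool.Agent.Helper93.NS
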