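import Pool.Agent.Helper93.NS.VarLow
import Pool.Agent.Helper99.NS.Sc

/-!
# NS: the variance, lower bound, without hypotheses
-/

set_option autoImplicit false
open Pool.Agent.Helper57.TX (QX)
open Pool.Agent.Helper57.NS (rk Xk)

namespace Pool.Agent.Helper93.NS

/-- D1: variance, lower bound -/
theorem var_low {k : ℝ} (hk : 0 < k) (hk8 : k ≤ 1 / 8) : ∃ C T₀ : ℝ, 1 ≤ C ∧ ∀ T L : ℝ, T₀ ≤ T → C ≤ L → L ≤ Real.log T →
    (1 - 6 * k) / Real.log L ≤ ∑ p ∈ QX (Xk k T L), rk k T L p ^ 2 / p :=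
  var_low_of (fun hk hk8 => Pool.Agent.Helper99.NS.card_bd hk hk8) (fun hk hk8 => Pool.Agent.Helper99.NS.sc_range hk hk8) hk hk8

end Pool.Agent.Helper93.NS
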