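import Mathlib

/-!
# NS: localisation

If the even moments of `f` on `E` are those of a Gaussian variable of variance `v` up to a factor `2`, then `|f| ≥ e` with
measure at least `exp (-(1+d) e²/(2v)) T`.
-/

set_option autoImplicit false
open MeasureTheory Set Filter Topology

namespace Pool.Agent.Helper93.NS

/-- `(2 m - 1)!!` -/
noncomputable def gm (m : ℕ) : ℝ := ∏ i ∈ Finset.range m, (2 * (i:ℝ) + 1)

lemma gm_succ (m : ℕ) : gm (m + 1) = gm m * (2 * m + 1) := by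
  unfold gm
  rw [Finset.prod_range_succ]

lemma gm_pos (m : ℕ) : 0 < gm m := Finset.prod_pos fun i _ => by positivity

/-- `(2 m - 1)!! = (2 m)!/(2^m m!)` -/
lemma gm_eq (m : ℕ) : gm m * (2 ^ m * (m.factorial : ℝ)) = ((2 * m).factorial : ℝ) := by
  induction m with
  | zero => simp [gm]
  | succ m ih =>
    rw [gm_succ, show 2 * (m + 1) = 2 * m + 1 + 1 by ring, Nat.factorial_succ, Nat.factorial_succ, Nat.factorial_succ]
    push_cast
    rw [← ih]
    ring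

lemma gm_lower (m : ℕ) (hm : 1 ≤ m) : (2 * (m:ℝ)) ^ m * Real.exp (-m) ≤ 2 * m * gm m := by
  have h1 : (2:ℝ) ^ m * (m.factorial : ℝ) ≤ 2 * m * gm m := by
    induction m, hm using Nat.le_induction with
    | base => simp [gm]
    | succ m hm ih =>
      rw [gm_succ, Nat.factorial_succ]
      push_cast
      have h2 : (2:ℝ) ^ (m + 1) * ((m + 1) * (m.factorial : ℝ)) = 2 * (m + 1) * (2 ^ m * (m.factorial : ℝ)) := by ring
      rw [h2]
      have h3 := mul_le_mul_of_nonneg_left ih (show (0:ℝ) ≤ 2 * (m + 1) by positivity)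
      have h4 : 2 * (m:ℝ) * gm m ≤ (2 * m + 1) * gm m := mul_le_mul_of_nonneg_right (by linarith) (gm_pos m).le
      have h5 := mul_le_mul_of_nonneg_left h4 (show (0:ℝ) ≤ 2 * (m + 1) by positivity)
      linarith
  have h2 := Real.pow_div_factorial_le_exp (m:ℝ) (Nat.cast_nonneg m) m
  have hf : (0:ℝ) < (m.factorial : ℝ) := by positivity
  rw [div_le_iff₀ hf] at h2
  have h3 : (m:ℝ) ^ m * Real.exp (-m) ≤ (m.factorial : ℝ) := by
    have h4 := mul_le_mul_of_nonneg_right h2 (Real.exp_pos (-(m:ℝ))).le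
    have h5 : Real.exp (m:ℝ) * (m.factorial : ℝ) * Real.exp (-(m:ℝ)) = (m.factorial : ℝ) := by
      rw [mul_right_comm, ← Real.exp_add]
      simp
    linarith
  calc (2 * (m:ℝ)) ^ m * Real.exp (-m) = 2 ^ m * ((m:ℝ) ^ m * Real.exp (-m)) := by rw [mul_pow]; ring
    _ ≤ 2 ^ m * (m.factorial : ℝ) := by gcongr
    _ ≤ 2 * m * gm m := h1

lemma ratio_low {v z : ℝ} (hv : 0 < v) (hz : 0 ≤ z) (m n : ℕ) (h : ∀ i, m ≤ i → i < m + n → z ≤ (2 * i + 1) * v) :
    z ^ n * (gm m * v ^ m) ≤ gm (m + n) * v ^ (m + n) := by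
  induction n with
  | zero => simp
  | succ n ih =>
    have h1 := ih fun i hi1 hi2 => h i hi1 (by omega)
    have h2 := h (m + n) (by omega) (by omega)
    rw [← add_assoc, gm_succ, pow_succ, pow_succ v]
    have h3 : 0 ≤ gm (m + n) * v ^ (m + n) := by
      have := gm_pos (m + n)
      positivity
    have h4 := mul_le_mul h1 h2 hz h3
    push_cast at h4 ⊢
    linarith

lemma ratio_up {v z : ℝ} (hv : 0 < v) (hz : 0 ≤ z) (m n : ℕ) (h : ∀ i, m ≤ i → i < m + n → (2 * i + 1) * v ≤ z) :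
    gm (m + n) * v ^ (m + n) ≤ z ^ n * (gm m * v ^ m) := by
  induction n with
  | zero => simp
  | succ n ih =>
    have h1 := ih fun i hi1 hi2 => h i hi1 (by omega)
    have h2 := h (m + n) (by omega) (by omega)
    rw [← add_assoc, gm_succ, pow_succ, pow_succ]
    have h3 : 0 ≤ z ^ n * (gm m * v ^ m) := by
      have := gm_pos m
      positivity
    have h4 := mul_le_mul h1 h2 (by positivity) h3
    push_cast at h4 ⊢
    linarith

/-- the pointwise inequality -/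
lemma split_pt {g x y : ℝ} (hg : 0 ≤ g) (hx : 0 ≤ x) (hy : 0 < y) (m n₁ n₂ : ℕ) :
    g ^ (m + n₁) ≤ x ^ n₁ * g ^ m + (y ^ n₂)⁻¹ * g ^ (m + n₁ + n₂) + y ^ (m + n₁) * (if x ≤ g then 1 else 0) := by
  have h1 : 0 ≤ x ^ n₁ * g ^ m := by positivity
  have h2 : 0 ≤ (y ^ n₂)⁻¹ * g ^ (m + n₁ + n₂) := by positivity
  rcases le_or_gt x g with h | h
  · rw [if_pos h, mul_one]
    rcases le_or_gt g y with h' | h'
    · have := pow_le_pow_left₀ hg h' (m + n₁)
      linarith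
    · have h3 : g ^ (m + n₁) ≤ (y ^ n₂)⁻¹ * g ^ (m + n₁ + n₂) := by
        rw [pow_add g (m + n₁) n₂, ← div_eq_inv_mul, le_div_iff₀ (by positivity)]
        exact mul_le_mul_of_nonneg_left (pow_le_pow_left₀ hy.le h'.le n₂) (by positivity)
      have : 0 ≤ y ^ (m + n₁) := by positivity
      linarith
  · rw [if_neg (not_le.2 h), mul_zero, add_zero]
    have h3 : g ^ (m + n₁) ≤ x ^ n₁ * g ^ m := by
      rw [pow_add, mul_comm]
      exact mul_le_mul_of_nonneg_right (pow_le_pow_left₀ hg h.le n₁) (by positivity)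
    linarith

/-- localisation -/
theorem localise (d : ℝ) (hd : 0 < d) (hd1 : d ≤ 1 / 2) : ∃ K C : ℝ, 1 ≤ K ∧ 1 ≤ C ∧ ∀ (E : Set ℝ) (f : ℝ → ℝ) (T v e : ℝ) (N : ℕ),
    MeasurableSet E → volume E ≠ ⊤ → Measurable f → 0 < T → 0 < v → 0 < e → K * v ≤ e ^ 2 → C * (e ^ 2 / v) ≤ N →
    (∀ m ≤ N, IntegrableOn (fun t => f t ^ (2 * m)) E ∧ T / 2 * (gm m * v ^ m) ≤ ∫ t in E, f t ^ (2 * m) ∧
      ∫ t in E, f t ^ (2 * m) ≤ 2 * T * (gm m * v ^ m)) →
    ENNReal.ofReal (Real.exp (-(1 + d) * (e ^ 2 / (2 * v))) * T) ≤ volume {t | t ∈ E ∧ e ≤ |f t|} := by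
  obtain ⟨δ, hδ⟩ : ∃ δ, δ = d / 10 := ⟨_, rfl⟩
  have hδ0 : 0 < δ := by rw [hδ]; positivity
  have hδ1 : δ ≤ 1 / 20 := by rw [hδ]; linarith
  have hdδ : d = 10 * δ := by rw [hδ]; ring
  have hK1 : 1 ≤ 10000 / δ ^ 2 := by
    rw [le_div_iff₀ (by positivity)]
    nlinarith
  refine ⟨10000 / δ ^ 2, 2, hK1, by norm_num, ?_⟩
  intro E f T v e N hE hEf hf hT hv he hKe hN hmom
  obtain ⟨a, ha⟩ : ∃ a, a = e ^ 2 / v := ⟨_, rfl⟩
  have hae : e ^ 2 = a * v := by rw [ha]; field_simp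
  have haK : 10000 / δ ^ 2 ≤ a := by
    rw [ha, le_div_iff₀ hv]
    exact hKe
  have haK' : 10000 ≤ a * δ ^ 2 := by rwa [div_le_iff₀ (by positivity)] at haK
  have ha0 : 0 < a := by linarith
  have haδ : 10000 ≤ a * δ := by nlinarith
  have ha1 : 10000 ≤ a := by nlinarith
  rw [← ha] at hN
  -- the three orders
  obtain ⟨m₁, hm₁⟩ : ∃ m₁ : ℕ, m₁ = ⌈(1 + δ / 2) * a / 2⌉₊ := ⟨_, rfl⟩
  obtain ⟨m, hm⟩ : ∃ m : ℕ, m = ⌈(1 + δ) * a / 2⌉₊ := ⟨_, rfl⟩
  obtain ⟨m₂, hm₂⟩ : ∃ m₂ : ℕ, m₂ = ⌈(1 + 2 * δ) * a / 2⌉₊ := ⟨_, rfl⟩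
  have l1 : (1 + δ / 2) * a / 2 ≤ m₁ := by rw [hm₁]; exact Nat.le_ceil _
  have u1 : (m₁:ℝ) ≤ (1 + δ / 2) * a / 2 + 1 := by rw [hm₁]; exact (Nat.ceil_lt_add_one (by positivity)).le
  have l2 : (1 + δ) * a / 2 ≤ m := by rw [hm]; exact Nat.le_ceil _
  have u2 : (m:ℝ) ≤ (1 + δ) * a / 2 + 1 := by rw [hm]; exact (Nat.ceil_lt_add_one (by positivity)).le
  have l3 : (1 + 2 * δ) * a / 2 ≤ m₂ := by rw [hm₂]; exact Nat.le_ceil _
  have u3 : (m₂:ℝ) ≤ (1 + 2 * δ) * a / 2 + 1 := by rw [hm₂]; exact (Nat.ceil_lt_add_one (by positivity)).le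
  have h12 : m₁ ≤ m := by
    have : (m₁:ℝ) ≤ m := by nlinarith
    exact_mod_cast this
  have h23 : m ≤ m₂ := by
    have : (m:ℝ) ≤ m₂ := by nlinarith
    exact_mod_cast this
  obtain ⟨n₁, hn₁⟩ : ∃ n₁, m = m₁ + n₁ := ⟨m - m₁, by omega⟩
  obtain ⟨n₂, hn₂⟩ : ∃ n₂, m₂ = m + n₂ := ⟨m₂ - m, by omega⟩
  have hn1 : 30 / δ ≤ n₁ := by
    have h1 : (m:ℝ) = m₁ + n₁ := by exact_mod_cast hn₁
    rw [div_le_iff₀ hδ0]
    nlinarith
  have hn2 : 30 / δ ≤ n₂ := by
    have h1 : (m₂:ℝ) = m + n₂ := by exact_mod_cast hn₂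
    rw [div_le_iff₀ hδ0]
    nlinarith
  have hm2N : m₂ ≤ N := by
    have : (m₂:ℝ) ≤ N := by nlinarith
    exact_mod_cast this
  have hmN : m ≤ N := h23.trans hm2N
  have hm1N : m₁ ≤ N := h12.trans hmN
  have hq : ∀ n : ℕ, 30 / δ ≤ n → (16:ℝ) ≤ (1 + δ / 2) ^ n := by
    intro n hn
    have h1 := one_add_mul_le_pow (show (-2:ℝ) ≤ δ / 2 by linarith) n
    rw [div_le_iff₀ hδ0] at hn
    linarith
  -- the ratios
  have hG0 : 0 < gm m * v ^ m := mul_pos (gm_pos m) (by positivity)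
  have r1 : (e ^ 2) ^ n₁ * (gm m₁ * v ^ m₁) ≤ gm m * v ^ m / 16 := by
    have h1 := ratio_low (v := v) (z := (1 + δ / 2) * e ^ 2) hv (by positivity) m₁ n₁ (fun i hi1 _ => by
      have : (m₁:ℝ) ≤ i := by exact_mod_cast hi1
      rw [hae]
      have h2 : (1 + δ / 2) * a ≤ 2 * i + 1 := by linarith
      have h3 := mul_le_mul_of_nonneg_right h2 hv.le
      linarith)
    rw [← hn₁, mul_pow] at h1
    have h2 := hq n₁ hn1
    have h3 : 0 ≤ (e ^ 2) ^ n₁ * (gm m₁ * v ^ m₁) := by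
      have := gm_pos m₁
      positivity
    have h4 : 16 * ((e ^ 2) ^ n₁ * (gm m₁ * v ^ m₁)) ≤ (1 + δ / 2) ^ n₁ * ((e ^ 2) ^ n₁ * (gm m₁ * v ^ m₁)) :=
      mul_le_mul_of_nonneg_right h2 h3
    linarith
  obtain ⟨y, hy⟩ : ∃ y, y = (1 + 4 * δ) * e ^ 2 := ⟨_, rfl⟩
  have hy0 : 0 < y := by rw [hy]; positivity
  have r2 : (y ^ n₂)⁻¹ * (gm m₂ * v ^ m₂) ≤ gm m * v ^ m / 16 := by
    have h1 := ratio_up (v := v) (z := y / (1 + δ / 2)) hv (by positivity) m n₂ (fun i hi1 hi2 => by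
      have h0 : (i:ℝ) + 1 ≤ m₂ := by exact_mod_cast (by omega : i + 1 ≤ m₂)
      rw [le_div_iff₀ (by positivity), hy, hae]
      have h2 : (2 * i + 1) * (1 + δ / 2) ≤ (1 + 4 * δ) * a := by
        have h3 : 2 * (i:ℝ) + 1 ≤ (1 + 2 * δ) * a + 1 := by linarith
        have h4 := mul_le_mul_of_nonneg_right h3 (show (0:ℝ) ≤ 1 + δ / 2 by positivity)
        refine h4.trans ?_
        nlinarith
      have h3 := mul_le_mul_of_nonneg_right h2 hv.le
      linarith)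
    rw [← hn₂, div_pow] at h1
    have h2 := hq n₂ hn2
    have h3 : (y ^ n₂)⁻¹ * (gm m₂ * v ^ m₂) ≤ (y ^ n₂)⁻¹ * (y ^ n₂ / (1 + δ / 2) ^ n₂ * (gm m * v ^ m)) :=
      mul_le_mul_of_nonneg_left h1 (by positivity)
    refine h3.trans ?_
    have h4 : (y ^ n₂)⁻¹ * (y ^ n₂ / (1 + δ / 2) ^ n₂ * (gm m * v ^ m)) = gm m * v ^ m / (1 + δ / 2) ^ n₂ := by
      have : y ^ n₂ ≠ 0 := by positivity
      field_simp
    rw [h4]
    exact div_le_div_of_nonneg_left hG0.le (by norm_num) h2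
  -- integrate
  set P : Set ℝ := {t | t ∈ E ∧ e ≤ |f t|} with hP
  have hPm : MeasurableSet P := hE.inter (measurableSet_le measurable_const hf.abs)
  have hPf : volume P ≠ ⊤ := ne_top_of_le_ne_top hEf (measure_mono fun t ht => ht.1)
  obtain ⟨i0, i0l, -⟩ := hmom m hmN
  obtain ⟨i1, -, i1u⟩ := hmom m₁ hm1N
  obtain ⟨i2, -, i2u⟩ := hmom m₂ hm2N
  have hind : IntegrableOn (fun t => P.indicator (fun _ => (1:ℝ)) t) E := by
    refine Integrable.indicator ?_ hPm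
    exact integrableOn_const hEf
  have hpt : ∀ t ∈ E, f t ^ (2 * m) ≤ (e ^ 2) ^ n₁ * f t ^ (2 * m₁) + (y ^ n₂)⁻¹ * f t ^ (2 * m₂) +
      y ^ m * P.indicator (fun _ => (1:ℝ)) t := by
    intro t ht
    have h1 := split_pt (g := f t ^ 2) (x := e ^ 2) (y := y) (sq_nonneg _) (sq_nonneg _) hy0 m₁ n₁ n₂
    rw [← hn₁, ← hn₂, ← pow_mul (f t) 2 m, ← pow_mul (f t) 2 m₁, ← pow_mul (f t) 2 m₂] at h1
    have h2 : (if e ^ 2 ≤ f t ^ 2 then (1:ℝ) else 0) = P.indicator (fun _ => (1:ℝ)) t := by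
      by_cases h : e ≤ |f t|
      · rw [if_pos (by
          rw [← sq_abs (f t)]
          exact pow_le_pow_left₀ he.le h 2), indicator_of_mem (show t ∈ P from ⟨ht, h⟩)]
      · rw [if_neg (fun h3 => h (by
          rw [← sq_abs (f t)] at h3
          exact (pow_le_pow_iff_left₀ he.le (abs_nonneg _) two_ne_zero).1 h3)), indicator_of_notMem (fun h3 => h h3.2)]
    rw [h2] at h1
    exact h1
  have hint := setIntegral_mono_on i0 (((i1.const_mul _).add (i2.const_mul _)).add (hind.const_mul _)) hE hpt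
  have i12 : IntegrableOn (fun t => (e ^ 2) ^ n₁ * f t ^ (2 * m₁) + (y ^ n₂)⁻¹ * f t ^ (2 * m₂)) E :=
    (i1.const_mul _).add (i2.const_mul _)
  have hsplit : ∫ t in E, ((e ^ 2) ^ n₁ * f t ^ (2 * m₁) + (y ^ n₂)⁻¹ * f t ^ (2 * m₂) + y ^ m * P.indicator (fun _ => (1:ℝ)) t) =
      (e ^ 2) ^ n₁ * (∫ t in E, f t ^ (2 * m₁)) + (y ^ n₂)⁻¹ * (∫ t in E, f t ^ (2 * m₂)) + y ^ m * volume.real P := by
    rw [integral_add i12 (hind.const_mul _), integral_add (i1.const_mul _) (i2.const_mul _),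
      integral_const_mul, integral_const_mul, integral_const_mul, setIntegral_indicator hPm,
      inter_eq_self_of_subset_right (fun t (ht : t ∈ P) => ht.1), setIntegral_const, smul_eq_mul, mul_one]
  have hfin : T / 4 * (gm m * v ^ m) ≤ y ^ m * volume.real P := by
    have h1 : ∫ t in E, f t ^ (2 * m) ≤ (e ^ 2) ^ n₁ * (∫ t in E, f t ^ (2 * m₁)) + (y ^ n₂)⁻¹ * (∫ t in E, f t ^ (2 * m₂)) +
        y ^ m * volume.real P := by
      rw [← hsplit]
      exact hint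
    have h2 : (e ^ 2) ^ n₁ * (∫ t in E, f t ^ (2 * m₁)) ≤ 2 * T * (gm m * v ^ m / 16) := by
      have h3 := mul_le_mul_of_nonneg_left i1u (show 0 ≤ (e ^ 2) ^ n₁ by positivity)
      have h4 := mul_le_mul_of_nonneg_left r1 (show 0 ≤ 2 * T by positivity)
      linarith
    have h5 : (y ^ n₂)⁻¹ * (∫ t in E, f t ^ (2 * m₂)) ≤ 2 * T * (gm m * v ^ m / 16) := by
      have h3 := mul_le_mul_of_nonneg_left i2u (show 0 ≤ (y ^ n₂)⁻¹ by positivity)
      have h4 := mul_le_mul_of_nonneg_left r2 (show 0 ≤ 2 * T by positivity)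
      linarith
    linarith
  -- the size
  have hm0 : 1 ≤ m := by
    have : (1:ℝ) ≤ m := by nlinarith
    exact_mod_cast this
  have hma : (m:ℝ) ≤ a := by nlinarith
  have hm0' : (0:ℝ) < m := by exact_mod_cast hm0
  have hgl := gm_lower m hm0
  have hyv : y ^ m = ((1 + 4 * δ) * a) ^ m * v ^ m := by
    rw [hy, hae, ← mul_pow]
    congr 1
    ring
  have hPreal : T * (Real.exp (-(1 + 4 * δ) * m) / (8 * m)) ≤ volume.real P := by
    have h1 : T / 4 * gm m ≤ ((1 + 4 * δ) * a) ^ m * volume.real P := by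
      rw [hyv] at hfin
      have hvm : 0 < v ^ m := by positivity
      have h2 : (T / 4 * gm m) * v ^ m ≤ (((1 + 4 * δ) * a) ^ m * volume.real P) * v ^ m := by linarith
      exact le_of_mul_le_mul_right h2 hvm
    have h2 : ((1 + 4 * δ) * a) ^ m ≤ Real.exp (4 * δ * m) * (2 * (m:ℝ)) ^ m := by
      rw [mul_pow]
      refine mul_le_mul ?_ (pow_le_pow_left₀ ha0.le (by nlinarith) m) (by positivity) (Real.exp_pos _).le
      have h3 := pow_le_pow_left₀ (show (0:ℝ) ≤ 1 + 4 * δ by positivity) (by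
        have := Real.add_one_le_exp (4 * δ)
        linarith : 1 + 4 * δ ≤ Real.exp (4 * δ)) m
      rwa [← Real.exp_nat_mul, mul_comm (m:ℝ)] at h3
    have h3 : T / 4 * gm m ≤ Real.exp (4 * δ * m) * (2 * (m:ℝ)) ^ m * volume.real P :=
      h1.trans (mul_le_mul_of_nonneg_right h2 measureReal_nonneg)
    have h4 : (2 * (m:ℝ)) ^ m * Real.exp (-m) / (2 * m) ≤ gm m := by
      rw [div_le_iff₀ (by positivity)]
      linarith
    have h5 : T / 4 * ((2 * (m:ℝ)) ^ m * Real.exp (-m) / (2 * m)) ≤ Real.exp (4 * δ * m) * (2 * (m:ℝ)) ^ m * volume.real P :=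
      (mul_le_mul_of_nonneg_left h4 (by positivity)).trans h3
    have h6 : (0:ℝ) < (2 * (m:ℝ)) ^ m := by positivity
    have h7 : Real.exp (-(1 + 4 * δ) * m) = Real.exp (-m) * Real.exp (-(4 * δ * m)) := by
      rw [← Real.exp_add]
      congr 1
      ring
    have h8 : Real.exp (4 * δ * m) * Real.exp (-(4 * δ * m)) = 1 := by
      rw [← Real.exp_add]
      simp
    have h9 : T / 4 * (Real.exp (-m) / (2 * m)) ≤ Real.exp (4 * δ * m) * volume.real P := by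
      have h10 : (2 * (m:ℝ)) ^ m * (T / 4 * (Real.exp (-m) / (2 * m))) ≤ (2 * (m:ℝ)) ^ m * (Real.exp (4 * δ * m) * volume.real P) := by
        calc (2 * (m:ℝ)) ^ m * (T / 4 * (Real.exp (-m) / (2 * m))) = T / 4 * ((2 * (m:ℝ)) ^ m * Real.exp (-m) / (2 * m)) := by ring
          _ ≤ Real.exp (4 * δ * m) * (2 * (m:ℝ)) ^ m * volume.real P := h5
          _ = (2 * (m:ℝ)) ^ m * (Real.exp (4 * δ * m) * volume.real P) := by ring
      exact le_of_mul_le_mul_left h10 h6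
    have h11 := mul_le_mul_of_nonneg_right h9 (Real.exp_pos (-(4 * δ * m))).le
    have h12 : Real.exp (4 * δ * m) * volume.real P * Real.exp (-(4 * δ * m)) = volume.real P := by
      rw [mul_right_comm, h8, one_mul]
    rw [h12] at h11
    refine le_trans (le_of_eq ?_) h11
    rw [h7]
    field_simp
    ring
  have hexp : Real.exp (-(1 + d) * (e ^ 2 / (2 * v))) ≤ Real.exp (-(1 + 4 * δ) * m) / (8 * m) := by
    rw [le_div_iff₀ (by positivity)]
    have h1 : e ^ 2 / (2 * v) = a / 2 := by rw [ha]; field_simp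
    rw [h1, hdδ]
    have h2 : 8 * (m:ℝ) ≤ Real.exp (δ * a / 2 - 2) := by
      have h3 : δ * a / 4 ≤ δ * a / 2 - 2 := by nlinarith
      have h4 : Real.exp (δ * a / 4) ≤ Real.exp (δ * a / 2 - 2) := Real.exp_le_exp.2 h3
      have h5 := Real.pow_div_factorial_le_exp (δ * a / 4) (by positivity) 2
      have h6 : 8 * a ≤ (δ * a / 4) ^ 2 / ((2:ℕ).factorial : ℝ) := by
        norm_num
        rw [le_div_iff₀ (by norm_num)]
        nlinarith
      linarith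
    have h3 : Real.exp (-(1 + 10 * δ) * (a / 2)) * (8 * m) ≤ Real.exp (-(1 + 10 * δ) * (a / 2)) * Real.exp (δ * a / 2 - 2) :=
      mul_le_mul_of_nonneg_left h2 (Real.exp_pos _).le
    refine h3.trans ?_
    rw [← Real.exp_add]
    refine Real.exp_le_exp.2 ?_
    nlinarith
  have hlast : Real.exp (-(1 + d) * (e ^ 2 / (2 * v))) * T ≤ volume.real P := by
    refine le_trans ?_ hPreal
    rw [mul_comm]
    exact mul_le_mul_of_nonneg_left hexp hT.le
  rw [measureReal_def] at hlast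
  exact ENNReal.ofReal_le_of_le_toReal hlast

end Pool.Agent.Helper93.NS
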